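import Pool.Agent.H93.KC.Targets

/-!
# Module CONG for MP_64e65e_gt: the complement of `G1 ∪ G2`
-/

open Set Metric Filter Topology

namespace Pool.Agent.H69.KC

open Pool.Agent.H93.KC

/-- Points outside `G1 ∪ G2`. -/
lemma not_mem {z : ℂ} (h1 : ‖z - 1‖ = 2 → ‖z + 1‖ < 1 / 100)
    (h2 : ‖z + 1‖ = 2 → ‖z - 1‖ < 1 / 100) : z ∈ (G1 ∪ G2)ᶜ := by
  rintro (⟨h, h'⟩ | ⟨h, h'⟩)
  · exact absurd (h1 h) (not_lt.2 h')
  · exact absurd (h2 h) (not_lt.2 h')

/-- The set of points avoided is symmetric. -/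
lemma neg_not_mem {z : ℂ} (h : z ∈ (G1 ∪ G2)ᶜ) : -z ∈ (G1 ∪ G2)ᶜ := by
  have e1 : ‖-z - 1‖ = ‖z + 1‖ := by rw [← norm_neg]; congr 1; ring
  have e2 : ‖-z + 1‖ = ‖z - 1‖ := by rw [← norm_neg]; congr 1; ring
  rintro (⟨h1, h2⟩ | ⟨h1, h2⟩)
  · exact h (Or.inr ⟨by rw [← e1]; exact h1, by rw [← e2]; exact h2⟩)
  · exact h (Or.inl ⟨by rw [← e2]; exact h1, by rw [← e1]; exact h2⟩)

/-- The real segment. -/
def S0 : Set ℂ := (fun x : ℝ => (x : ℂ)) '' Ioo (-3) 3

lemma S0_pre : IsPreconnected S0 :=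
  isPreconnected_Ioo.image _ Complex.continuous_ofReal.continuousOn

lemma norm_real (x y : ℝ) : ‖(x : ℂ) - (y : ℂ)‖ = |x - y| := by
  rw [← Complex.ofReal_sub, Complex.norm_real, Real.norm_eq_abs]

lemma S0_sub : S0 ⊆ (G1 ∪ G2)ᶜ := by
  rintro _ ⟨x, hx, rfl⟩
  have e1 : ‖(x : ℂ) - 1‖ = |x - 1| := by simpa using norm_real x 1
  have e2 : ‖(x : ℂ) + 1‖ = |x + 1| := by
    have := norm_real x (-1)
    simpa using this
  apply not_mem
  · intro h
    simp only at h ⊢
    rw [e1] at h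
    rw [e2]
    rcases abs_eq (by norm_num : (0 : ℝ) ≤ 2) |>.1 h with h | h
    · exfalso; linarith [hx.2]
    · have : x + 1 = 0 := by linarith
      rw [this]; norm_num
  · intro h
    simp only at h ⊢
    rw [e2] at h
    rw [e1]
    rcases abs_eq (by norm_num : (0 : ℝ) ≤ 2) |>.1 h with h | h
    · have : x - 1 = 0 := by linarith
      rw [this]; norm_num
    · exfalso; linarith [hx.1]

lemma S0_zero : (0 : ℂ) ∈ S0 := ⟨0, by norm_num, by simp⟩

lemma S0_one : (1 : ℂ) ∈ S0 := ⟨1, by norm_num, by simp⟩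

lemma normsq (z w : ℂ) : ‖z - w‖ ^ 2 = (z.re - w.re) ^ 2 + (z.im - w.im) ^ 2 := by
  rw [Complex.sq_norm, Complex.normSq_apply]
  simp only [Complex.sub_re, Complex.sub_im]
  ring

lemma normsq1 (z : ℂ) : ‖z - 1‖ ^ 2 = (z.re - 1) ^ 2 + z.im ^ 2 := by
  rw [normsq]; simp

lemma normsq2 (z : ℂ) : ‖z + 1‖ ^ 2 = (z.re + 1) ^ 2 + z.im ^ 2 := by
  have := normsq z (-1)
  simpa using this

/-- The right lune. -/
lemma right_lune (a : ℂ) (h1 : ‖a - 1‖ < 2) (h2 : 2 < ‖a + 1‖) :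
    ∃ C : Set ℂ, IsPreconnected C ∧ C ⊆ (G1 ∪ G2)ᶜ ∧ a ∈ C ∧ (0 : ℂ) ∈ C := by
  have ha1 : (a.re - 1) ^ 2 + a.im ^ 2 < 4 := by
    rw [← normsq1]; nlinarith [norm_nonneg (a - 1)]
  have ha2 : 4 < (a.re + 1) ^ 2 + a.im ^ 2 := by
    rw [← normsq2]; nlinarith [norm_nonneg (a + 1)]
  set C1 : Set ℂ := (fun t : ℝ => a + t * (3 - a)) '' Ico 0 1 with hC1
  set C2 : Set ℂ := ball 3 1 ∩ ball 1 2 with hC2
  have p1 : IsPreconnected C1 :=
    isPreconnected_Ico.image _ (by fun_prop)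
  have p2 : IsPreconnected C2 := ((convex_ball _ _).inter (convex_ball _ _)).isPreconnected
  have s1 : C1 ⊆ (G1 ∪ G2)ᶜ := by
    rintro _ ⟨t, ht, rfl⟩
    simp only
    set z : ℂ := a + t * (3 - a) with hz
    have hre : z.re = a.re + t * (3 - a.re) := by
      simp [hz]
    have him : z.im = a.im - t * a.im := by
      simp [hz]; ring
    have hlt : ‖z - 1‖ < 2 := by
      have : z - 1 = (((1 - t : ℝ)) : ℂ) * (a - 1) + (t : ℂ) * 2 := by
        rw [hz]; push_cast; ring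
      rw [this]
      refine lt_of_le_of_lt (norm_add_le _ _) ?_
      rw [norm_mul, norm_mul, Complex.norm_real, Complex.norm_real, Real.norm_eq_abs,
        Real.norm_eq_abs, abs_of_nonneg (by linarith [ht.2]), abs_of_nonneg ht.1]
      have h2' : ‖(2 : ℂ)‖ = 2 := by simp
      rw [h2']
      nlinarith [ht.2, ht.1]
    have hgt : 4 < ‖z + 1‖ ^ 2 := by
      rw [normsq2, hre, him]
      have hpos : 0 < 2 * a.re + 3 - (a.re ^ 2 + a.im ^ 2) := by nlinarith
      have key : (a.re + t * (3 - a.re) + 1) ^ 2 + (a.im - t * a.im) ^ 2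
          = ((a.re + 1) ^ 2 + a.im ^ 2) + 2 * t * (2 * a.re + 3 - (a.re ^ 2 + a.im ^ 2))
            + t ^ 2 * ((3 - a.re) ^ 2 + a.im ^ 2) := by ring
      rw [key]
      have : 0 ≤ t * (2 * a.re + 3 - (a.re ^ 2 + a.im ^ 2)) := mul_nonneg ht.1 hpos.le
      have : 0 ≤ t ^ 2 * ((3 - a.re) ^ 2 + a.im ^ 2) := by positivity
      linarith
    apply not_mem
    · intro h; exact absurd h hlt.ne
    · intro h; rw [h] at hgt; norm_num at hgt
  have s2 : C2 ⊆ (G1 ∪ G2)ᶜ := by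
    rintro z ⟨hz1, hz2⟩
    rw [mem_ball, dist_eq_norm] at hz1 hz2
    apply not_mem
    · intro h; exact absurd h hz2.ne
    · intro h
      exfalso
      have h4 : ‖(4 : ℂ)‖ = 4 := by simp
      have : ‖(4 : ℂ)‖ ≤ ‖z + 1‖ + ‖z - 3‖ := by
        have e : (4 : ℂ) = (z + 1) - (z - 3) := by ring
        rw [e]; exact norm_sub_le _ _
      rw [h4, h] at this
      linarith
  have m12 : a + ((7 / 8 : ℝ) : ℂ) * (3 - a) ∈ C2 := by
    constructor
    · rw [mem_ball, dist_eq_norm]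
      have e : a + ((7 / 8 : ℝ) : ℂ) * (3 - a) - 3 = ((1 / 8 : ℝ) : ℂ) * (a - 3) := by
        push_cast; ring
      rw [e, norm_mul, Complex.norm_real]
      have : ‖a - 3‖ ≤ ‖a - 1‖ + 2 := by
        have e : a - 3 = (a - 1) - 2 := by ring
        rw [e]
        refine (norm_sub_le _ _).trans ?_
        simp
      rw [Real.norm_eq_abs, abs_of_nonneg (by norm_num)]
      linarith
    · rw [mem_ball, dist_eq_norm]
      have e : a + ((7 / 8 : ℝ) : ℂ) * (3 - a) - 1 = ((1 / 8 : ℝ) : ℂ) * (a - 1)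
          + ((7 / 8 : ℝ) : ℂ) * 2 := by
        push_cast; ring
      rw [e]
      refine lt_of_le_of_lt (norm_add_le _ _) ?_
      rw [norm_mul, norm_mul, Complex.norm_real, Complex.norm_real, Real.norm_eq_abs,
        Real.norm_eq_abs, abs_of_nonneg (by norm_num), abs_of_nonneg (by norm_num)]
      have h2' : ‖(2 : ℂ)‖ = 2 := by simp
      rw [h2']
      linarith
  have m1 : a + ((7 / 8 : ℝ) : ℂ) * (3 - a) ∈ C1 := ⟨7 / 8, by norm_num, rfl⟩
  have m2 : ((29 / 10 : ℝ) : ℂ) ∈ C2 := by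
    constructor
    · rw [mem_ball, dist_eq_norm]
      have := norm_real (29 / 10) 3
      rw [show ((3 : ℝ) : ℂ) = 3 by simp] at this
      rw [this]; norm_num [abs_lt]
    · rw [mem_ball, dist_eq_norm]
      have := norm_real (29 / 10) 1
      rw [show ((1 : ℝ) : ℂ) = 1 by simp] at this
      rw [this]; norm_num [abs_lt]
  have m0 : ((29 / 10 : ℝ) : ℂ) ∈ S0 := ⟨29 / 10, by norm_num, rfl⟩
  refine ⟨(C1 ∪ C2) ∪ S0, ?_, ?_, ?_, ?_⟩
  · exact IsPreconnected.union _ (Or.inr m2) m0 (IsPreconnected.union _ m1 m12 p1 p2) S0_pre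
  · exact union_subset (union_subset s1 s2) S0_sub
  · exact Or.inl (Or.inl ⟨0, by norm_num, by simp⟩)
  · exact Or.inr S0_zero

theorem cong : T_CONG := by
  intro a ha
  rcases lt_trichotomy ‖a - 1‖ 2 with h1 | h1 | h1
  · rcases lt_trichotomy ‖a + 1‖ 2 with h2 | h2 | h2
    · -- both discs
      refine ⟨ball 1 2 ∩ ball (-1) 2, ((convex_ball _ _).inter (convex_ball _ _)).isPreconnected,
        ?_, ?_, Or.inl ?_⟩
      · rintro z ⟨hz1, hz2⟩
        rw [mem_ball, dist_eq_norm] at hz1 hz2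
        rw [sub_neg_eq_add] at hz2
        exact not_mem (fun h => absurd h hz1.ne) (fun h => absurd h hz2.ne)
      · refine ⟨?_, ?_⟩
        · rw [mem_ball, dist_eq_norm]; exact h1
        · rw [mem_ball, dist_eq_norm, sub_neg_eq_add]; exact h2
      · refine ⟨?_, ?_⟩ <;> rw [mem_ball, dist_eq_norm] <;> simp
    · -- on the second circle
      have h3 : ‖a - 1‖ < 1 / 100 := by
        by_contra h
        exact ha (Or.inr ⟨h2, not_lt.1 h⟩)
      refine ⟨ball 1 (1 / 100) ∪ S0, ?_, ?_, ?_, Or.inl (Or.inr S0_zero)⟩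
      · exact IsPreconnected.union 1 (by simp) S0_one (convex_ball _ _).isPreconnected S0_pre
      · refine union_subset ?_ S0_sub
        intro z hz
        rw [mem_ball, dist_eq_norm] at hz
        refine not_mem (fun h => ?_) (fun _ => hz)
        rw [h] at hz; norm_num at hz
      · exact Or.inl (by rw [mem_ball, dist_eq_norm]; exact h3)
    · obtain ⟨C, c1, c2, c3, c4⟩ := right_lune a h1 h2
      exact ⟨C, c1, c2, c3, Or.inl c4⟩
  · -- on the first circle
    have h3 : ‖a + 1‖ < 1 / 100 := by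
      by_contra h
      exact ha (Or.inl ⟨h1, not_lt.1 h⟩)
    refine ⟨ball (-1) (1 / 100) ∪ S0, ?_, ?_, ?_, Or.inl (Or.inr S0_zero)⟩
    · exact IsPreconnected.union (-1) (by simp) ⟨-1, by norm_num, by simp⟩
        (convex_ball _ _).isPreconnected S0_pre
    · refine union_subset ?_ S0_sub
      intro z hz
      rw [mem_ball, dist_eq_norm, sub_neg_eq_add] at hz
      refine not_mem (fun _ => hz) (fun h => ?_)
      rw [h] at hz; norm_num at hz
    · exact Or.inl (by rw [mem_ball, dist_eq_norm, sub_neg_eq_add]; exact h3)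
  · rcases lt_or_ge 2 ‖a + 1‖ with h2 | h2
    · -- outside both
      have ha1 : 4 < (a.re - 1) ^ 2 + a.im ^ 2 := by
        rw [← normsq1]; nlinarith [norm_nonneg (a - 1)]
      have ha2 : 4 < (a.re + 1) ^ 2 + a.im ^ 2 := by
        rw [← normsq2]; nlinarith [norm_nonneg (a + 1)]
      have hna : 1 < ‖a‖ := by
        have : ‖a - 1‖ ≤ ‖a‖ + 1 := by
          refine (norm_sub_le _ _).trans ?_
          simp
        linarith
      have hsq : ‖a‖ ^ 2 = a.re ^ 2 + a.im ^ 2 := by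
        rw [Complex.sq_norm, Complex.normSq_apply]; ring
      have hre1 : a.re ≤ ‖a‖ := Complex.re_le_norm a
      have hre2 : -‖a‖ ≤ a.re := by
        have := Complex.abs_re_le_norm a
        exact (abs_le.1 this).1
      refine ⟨(fun t : ℝ => (t : ℂ) * a) '' Ici 1, isPreconnected_Ici.image _ (by fun_prop),
        ?_, ⟨1, by simp, by simp⟩, Or.inr ⟨((4 : ℝ) : ℂ) * a, ⟨4, by norm_num, rfl⟩, ?_⟩⟩
      · rintro _ ⟨t, ht, rfl⟩
        simp only
        have ht : (1 : ℝ) ≤ t := ht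
        have hre : ((t : ℂ) * a).re = t * a.re := by simp
        have him : ((t : ℂ) * a).im = t * a.im := by simp
        have g1 : 4 < ‖(t : ℂ) * a - 1‖ ^ 2 := by
          rw [normsq1, hre, him]
          have h0 : a.re ^ 2 + a.im ^ 2 - a.re ≥ 0 := by nlinarith
          have key : (t * a.re - 1) ^ 2 + (t * a.im) ^ 2 = ((a.re - 1) ^ 2 + a.im ^ 2)
            + (t - 1) ^ 2 * (a.re ^ 2 + a.im ^ 2)
            + 2 * (t - 1) * (a.re ^ 2 + a.im ^ 2 - a.re) := by ring
          rw [key]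
          have : 0 ≤ (t - 1) * (a.re ^ 2 + a.im ^ 2 - a.re) := mul_nonneg (by linarith) h0
          have : 0 ≤ (t - 1) ^ 2 * (a.re ^ 2 + a.im ^ 2) := by positivity
          linarith
        have g2 : 4 < ‖(t : ℂ) * a + 1‖ ^ 2 := by
          rw [normsq2, hre, him]
          have h0 : a.re ^ 2 + a.im ^ 2 + a.re ≥ 0 := by nlinarith
          have key : (t * a.re + 1) ^ 2 + (t * a.im) ^ 2 = ((a.re + 1) ^ 2 + a.im ^ 2)
            + (t - 1) ^ 2 * (a.re ^ 2 + a.im ^ 2)
            + 2 * (t - 1) * (a.re ^ 2 + a.im ^ 2 + a.re) := by ring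
          rw [key]
          have : 0 ≤ (t - 1) * (a.re ^ 2 + a.im ^ 2 + a.re) := mul_nonneg (by linarith) h0
          have : 0 ≤ (t - 1) ^ 2 * (a.re ^ 2 + a.im ^ 2) := by positivity
          linarith
        refine not_mem (fun h => ?_) (fun h => ?_)
        · rw [h] at g1; norm_num at g1
        · rw [h] at g2; norm_num at g2
      · rw [norm_mul, Complex.norm_real, Real.norm_eq_abs, abs_of_nonneg (by norm_num)]
        linarith
    · rcases lt_or_eq_of_le h2 with h2 | h2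
      · -- the left lune
        have e1 : ‖-a - 1‖ = ‖a + 1‖ := by rw [← norm_neg]; congr 1; ring
        have e2 : ‖-a + 1‖ = ‖a - 1‖ := by rw [← norm_neg]; congr 1; ring
        obtain ⟨C, c1, c2, c3, c4⟩ := right_lune (-a) (by rw [e1]; exact h2) (by rw [e2]; exact h1)
        refine ⟨(fun z => -z) '' C, c1.image _ (by fun_prop), ?_, ⟨-a, c3, by simp⟩,
          Or.inl ⟨0, c4, by simp⟩⟩
        rintro _ ⟨z, hz, rfl⟩
        exact neg_not_mem (c2 hz)
      · exfalso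
        have h3 : ‖a - 1‖ < 1 / 100 := by
          by_contra h
          exact ha (Or.inr ⟨h2, not_lt.1 h⟩)
        linarith

end Pool.Agent.H69.KC
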