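import Pool.Agent.H93.KC.Targets

/-!
# Module NOHOL for MP_64e65e_gt: no nonconstant holomorphic functions
-/

open Set Metric Filter Topology Manifold
open scoped ContDiff

namespace Pool.Agent.H69.KC

open Pool.Agent.H93.KC

variable (t : Tower)

/-- A holomorphic function read in the chart `j`. -/
lemma diff_chart [IsManifold 𝓘(ℂ, ℂ × ℂ) ω t.Mfd] (f : t.Mfd → ℂ)
    (hf : MDifferentiable 𝓘(ℂ, ℂ × ℂ) 𝓘(ℂ, ℂ) f) (j : ℕ) (y : E) (hy : ‖y‖ < t.R j) :
    DifferentiableAt ℂ (fun y : E => f (t.ci j y)) y := by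
  have : IsManifold 𝓘(ℂ, ℂ × ℂ) 1 t.Mfd := IsManifold.of_le (n := ω) (by exact le_top)
  have h1 : MDifferentiableAt 𝓘(ℂ, ℂ × ℂ) 𝓘(ℂ, ℂ × ℂ) (t.chart j).symm y :=
    mdifferentiableAt_atlas_symm (I := 𝓘(ℂ, ℂ × ℂ)) (mem_range_self j) hy
  have h2 : MDifferentiableAt 𝓘(ℂ, ℂ × ℂ) 𝓘(ℂ, ℂ) (f ∘ (t.chart j).symm) y :=
    MDifferentiableAt.comp y (hf _) h1
  exact mdifferentiableAt_iff_differentiableAt.1 h2

theorem nohol (hH : T_HULL) (hG : T_GEO) : T_NOHOL := by
  intro t hM f hf
  have hfc : Continuous (fun x : E => f x) := hf.continuous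
  -- the maximum on the unit ball
  obtain ⟨x0, hx0, hmax⟩ := (isCompact_closedBall (0 : E) 1).exists_isMaxOn
    ⟨0, by simp⟩ (hfc.norm.continuousOn)
  have hbound : ∀ x : E, ‖f x‖ ≤ ‖f x0‖ := by
    have hcl : IsClosed {x : E | ‖f x‖ ≤ ‖f x0‖} := isClosed_le hfc.norm continuous_const
    have hsub : {x : E | ∃ j, 100 ≤ t.R j ∧ t.c j x = q ∧ Y ⊆ t.c j '' closedBall 0 1} ⊆
        {x : E | ‖f x‖ ≤ ‖f x0‖} := by
      rintro x ⟨j, hR, hq, hY⟩
      obtain ⟨_, _, _, _, hX100, hqX, _⟩ := hG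
      have hXU : X ⊆ ball (0 : E) (t.R j) := hX100.trans (ball_subset_ball hR)
      obtain ⟨y, hy, hle⟩ := hH (fun y : E => f (t.ci j y)) (ball 0 (t.R j)) isOpen_ball hXU
        (fun y hy => (diff_chart t f hf j y (by simpa using hy)).differentiableWithinAt) q hqX
      obtain ⟨k, hk, rfl⟩ := hY hy
      simp only [← hq, t.left] at hle
      exact hle.trans (hmax hk)
    have := hcl.closure_subset_iff.2 hsub
    rw [t.hull.closure_eq] at this
    exact fun x => this (mem_univ x)
  have hclopen : IsClopen {x : E | f x = f x0} := by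
    refine ⟨isClosed_eq hfc continuous_const, ?_⟩
    rw [isOpen_iff_mem_nhds]
    intro x hx
    have hx' : f x = f x0 := hx
    set j := t.idx x with hj
    have hlt : ‖t.c j x‖ < t.R j := t.idx_spec x
    have hd : ∀ᶠ z in 𝓝 (t.c j x), DifferentiableAt ℂ (fun y : E => f (t.ci j y)) z := by
      have : ∀ᶠ z in 𝓝 (t.c j x), ‖z‖ < t.R j :=
        (isOpen_lt continuous_norm continuous_const).mem_nhds hlt
      filter_upwards [this] with z hz
      exact diff_chart t f hf j z hz
    have hm : IsLocalMax (norm ∘ (fun y : E => f (t.ci j y))) (t.c j x) := by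
      refine Eventually.of_forall fun z => ?_
      simp only [Function.comp_apply, t.left]
      rw [hx']
      exact hbound _
    have he := Complex.eventually_eq_of_isLocalMax_norm hd hm
    have hc : Tendsto (t.c j) (𝓝 x) (𝓝 (t.c j x)) := (t.smooth j).continuous.continuousAt
    filter_upwards [hc.eventually he] with z hz
    simp only [t.left] at hz
    exact hz.trans hx'
  have huniv := hclopen.eq_univ ⟨x0, rfl⟩
  intro x y
  have h1 : (x : E) ∈ {x : E | f x = f x0} := by rw [huniv]; exact mem_univ _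
  have h2 : (y : E) ∈ {x : E | f x = f x0} := by rw [huniv]; exact mem_univ _
  exact (h1 : f x = f x0).trans (h2 : f y = f x0).symm

end Pool.Agent.H69.KC
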