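import Pool.Agent.H93.KC.Targets

/-!
# Module SEQ for MP_64e65e_gt: the tower
-/

open Set Metric Filter Topology
open scoped ContDiff

noncomputable section

namespace Pool.Agent.H69.KC

open Pool.Agent.H93.KC

/-- A stage of the construction. -/
structure Stage where
  R : ℝ
  c : E → E
  ci : E → E
  u : E → ℝ
  two_le : 2 ≤ R
  smooth : ContDiff ℝ ∞ c
  smooth' : ContDiff ℝ ∞ ci
  left : ∀ x, ci (c x) = x
  right : ∀ x, c (ci x) = x
  spsh : Spsh u
  unit : ∀ x, ‖x‖ ≤ 1 → ‖c x‖ < R

/-- The relation between successive stages. -/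
structure Next (s s' : Stage) (d : E) (n : ℕ) : Prop where
  hol : AnalyticOnNhd ℂ (fun y => s'.c (s.ci y)) (closedBall 0 s.R)
  hol' : ∀ y ∈ closedBall 0 s.R, AnalyticAt ℂ (fun y' => s.c (s'.ci y')) (s'.c (s.ci y))
  compat : ∀ y ∈ closedBall 0 s.R, ∀ v w : E,
    herm s'.u (s'.c (s.ci y)) (fderiv ℂ (fun y' => s'.c (s.ci y')) y v)
      (fderiv ℂ (fun y' => s'.c (s.ci y')) y w) = herm s.u y v w
  far : ∃ ρ m : ℝ, 0 < m ∧ 1 ≤ m * (s'.R - ρ) ∧
    (∀ x, ‖s.c x‖ ≤ s.R → ‖s'.c x‖ ≤ ρ) ∧
    ∀ y, ρ ≤ ‖y‖ → ∀ v : E, m ^ 2 * ‖v‖ ^ 2 ≤ herm s'.u y v v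
  big : ∀ x : E, ‖x‖ ≤ n → ‖s'.c x‖ < s'.R
  hund : 100 ≤ s'.R
  hull : ‖s.c d‖ < s.R → s'.c d = q ∧ Y ⊆ s'.c '' closedBall 0 1

/-- The first stage. -/
def init (hSQ : T_SQ) : Stage where
  R := 3
  c := id
  ci := id
  u := fun y => ‖y.1‖ ^ 2 + ‖y.2‖ ^ 2
  two_le := by norm_num
  smooth := contDiff_id
  smooth' := contDiff_id
  left := fun _ => rfl
  right := fun _ => rfl
  spsh := by
    refine ⟨hSQ.1, fun x v hv => ?_⟩
    rw [hSQ.2]
    rcases eq_or_ne v.1 0 with h1 | h1
    · have h2 : v.2 ≠ 0 := fun h2 => hv (Prod.ext h1 h2)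
      have : 0 < ‖v.2‖ := norm_pos_iff.2 h2
      positivity
    · have : 0 < ‖v.1‖ := norm_pos_iff.2 h1
      positivity
  unit := fun x hx => by
    show ‖x‖ < 3
    linarith

lemma exists_next (hE : T_EMB) (hK : T_KEXT) (s : Stage) (d : E) (n : ℕ) :
    ∃ s' : Stage, Next s s' d n := by
  have hR : 0 < s.R := by linarith [s.two_le]
  -- the points `a` and `p`
  have hc0 : ‖s.c 0‖ < s.R := s.unit 0 (by simp)
  obtain ⟨a, haR, had⟩ : ∃ a : E, ‖a‖ < s.R ∧ (‖s.c d‖ < s.R → a = s.c d) := by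
    by_cases h : ‖s.c d‖ < s.R
    · exact ⟨s.c d, h, fun _ => rfl⟩
    · exact ⟨s.c 0, hc0, fun h' => absurd h' h⟩
  obtain ⟨p0, hp01, hp0a⟩ : ∃ p0 : E, ‖p0‖ < 1 ∧ s.c p0 ≠ a := by
    by_cases h : s.c 0 = a
    · refine ⟨((1 / 2 : ℂ), (0 : ℂ)), ?_, ?_⟩
      · rw [Prod.norm_def]
        simp only [norm_zero]
        have : ‖(1 / 2 : ℂ)‖ = 1 / 2 := by simp
        rw [this]
        norm_num
      · intro h'
        have h2 := congrArg s.ci (h'.trans h.symm)
        rw [s.left, s.left] at h2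
        have := congrArg Prod.fst h2
        norm_num at this
    · exact ⟨0, by simp, h⟩
  have hopen : IsOpen (s.ci ⁻¹' ball 0 1) := isOpen_ball.preimage s.smooth'.continuous
  have hpm : s.c p0 ∈ s.ci ⁻¹' ball 0 1 := by
    simp only [mem_preimage, s.left, mem_ball_zero_iff]
    exact hp01
  obtain ⟨ε, hε, hball⟩ := Metric.isOpen_iff.1 hopen _ hpm
  obtain ⟨φ, ψ, hstep, hY, hq⟩ := hE s.R (s.c p0) a ε hR (s.unit _ hp01.le) haR hp0a hε
  obtain ⟨u', hu', hcompat, ρ0, m, hm, hfar⟩ := hK s.R φ ψ hR hstep s.u s.spsh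
  obtain ⟨B, hB⟩ := (isCompact_closedBall (0 : E) s.R).exists_bound_of_continuousOn
    (f := φ) hstep.smooth.continuous.continuousOn
  obtain ⟨D, hD⟩ := (isCompact_closedBall (0 : E) (n + 1)).exists_bound_of_continuousOn
    (f := fun x => φ (s.c x)) (hstep.smooth.continuous.comp s.smooth.continuous).continuousOn
  have e1 : (fun y => φ (s.c (s.ci y))) = φ := by
    funext y; rw [s.right]
  have e2 : (fun y => s.c (s.ci (ψ y))) = ψ := by
    funext y; rw [s.right]
  set R' : ℝ := max 100 (max (max ρ0 B + 1 / m) (D + 1)) with hR'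
  have r1 : 100 ≤ R' := le_max_left _ _
  have r2 : max ρ0 B + 1 / m ≤ R' := (le_max_left _ _).trans (le_max_right _ _)
  have r3 : D + 1 ≤ R' := (le_max_right _ _).trans (le_max_right _ _)
  have hbig : ∀ x : E, ‖x‖ ≤ n + 1 → ‖φ (s.c x)‖ < R' := by
    intro x hx
    have := hD x (by simpa using hx)
    linarith
  refine ⟨{ R := R'
            c := fun x => φ (s.c x)
            ci := fun y => s.ci (ψ y)
            u := u'
            two_le := by linarith
            smooth := hstep.smooth.comp s.smooth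
            smooth' := s.smooth'.comp hstep.smooth'
            left := fun x => by rw [hstep.left, s.left]
            right := fun y => by rw [s.right, hstep.right]
            spsh := hu'
            unit := fun x hx => hbig x (by have : (0 : ℝ) ≤ n := Nat.cast_nonneg n; linarith) },
    ?_, ?_, ?_, ?_, ?_, ?_, ?_⟩
  · -- hol
    show AnalyticOnNhd ℂ (fun y => φ (s.c (s.ci y))) _
    rw [e1]
    exact hstep.hol.mono (closedBall_subset_closedBall (by linarith))
  · intro y hy
    show AnalyticAt ℂ (fun y => s.c (s.ci (ψ y))) (φ (s.c (s.ci y)))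
    rw [e2, s.right]
    exact hstep.hol' _ ⟨y, closedBall_subset_closedBall (by linarith) hy, rfl⟩
  · intro y hy v w
    show herm u' (φ (s.c (s.ci y))) (fderiv ℂ (fun y => φ (s.c (s.ci y))) y v)
      (fderiv ℂ (fun y => φ (s.c (s.ci y))) y w) = herm s.u y v w
    rw [e1, s.right]
    exact hcompat y (by simpa using hy) v w
  · refine ⟨max ρ0 B, m, hm, ?_, ?_, ?_⟩
    · show 1 ≤ m * (R' - max ρ0 B)
      have : 1 / m ≤ R' - max ρ0 B := by linarith
      calc (1 : ℝ) = m * (1 / m) := by field_simp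
        _ ≤ _ := mul_le_mul_of_nonneg_left this hm.le
    · intro x hx
      exact (hB _ (by simpa using hx)).trans (le_max_right _ _)
    · intro y hy v
      exact hfar y ((le_max_left _ _).trans hy) v
  · intro x hx
    exact hbig x (by linarith)
  · exact r1
  · intro hd
    refine ⟨?_, ?_⟩
    · show φ (s.c d) = q
      rw [← had hd]; exact hq
    · intro y hy
      obtain ⟨z, hz, rfl⟩ := hY hy
      have hz' := hball hz
      refine ⟨s.ci z, ?_, ?_⟩
      · have : s.ci z ∈ ball (0 : E) 1 := hz'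
        exact ball_subset_closedBall this
      · show φ (s.c (s.ci z)) = φ z
        rw [s.right]

theorem seq (hE : T_EMB) (hK : T_KEXT) (hSQ : T_SQ) : T_SEQ := by
  classical
  choose nx hnx using fun (s : Stage) (d : E) (n : ℕ) => exists_next hE hK s d n
  let dd : ℕ → E := TopologicalSpace.denseSeq E
  let S : ℕ → Stage := fun j =>
    Nat.rec (init hSQ) (fun j s => nx s (dd (Nat.unpair j).1) (j + 1)) j
  have hS : ∀ j, Next (S j) (S (j + 1)) (dd (Nat.unpair j).1) (j + 1) := fun j => hnx _ _ _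
  have hpers : ∀ (x : E) (j : ℕ), ‖(S j).c x‖ < (S j).R → ‖(S (j + 1)).c x‖ < (S (j + 1)).R := by
    intro x j h
    obtain ⟨ρ, m, hm, h1, h2, _⟩ := (hS j).far
    have h3 := h2 x h.le
    have h4 : 0 < (S (j + 1)).R - ρ := by
      by_contra h5
      have : m * ((S (j + 1)).R - ρ) ≤ 0 := mul_nonpos_of_nonneg_of_nonpos hm.le (not_lt.1 h5)
      linarith
    linarith
  have hexh : ∀ x : E, ∃ j, ‖(S j).c x‖ < (S j).R := by
    intro x
    obtain ⟨n, hn⟩ := exists_nat_ge ‖x‖
    refine ⟨n + 1, (hS n).big x ?_⟩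
    push_cast
    linarith
  refine ⟨{ R := fun j => (S j).R
            c := fun j => (S j).c
            ci := fun j => (S j).ci
            u := fun j => (S j).u
            R_zero := (S 0).two_le
            c_zero := fun x => rfl
            smooth := fun j => (S j).smooth
            smooth' := fun j => (S j).smooth'
            left := fun j => (S j).left
            right := fun j => (S j).right
            hol := fun j => (hS j).hol
            hol' := fun j => (hS j).hol'
            spsh := fun j => (S j).spsh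
            compat := fun j => (hS j).compat
            far := fun j => (hS j).far
            exh := hexh
            hull := ?_ }⟩
  refine Dense.mono ?_ (TopologicalSpace.denseRange_denseSeq E)
  rintro _ ⟨k, rfl⟩
  obtain ⟨j0, hj0⟩ := hexh (dd k)
  have hall : ∀ j, j0 ≤ j → ‖(S j).c (dd k)‖ < (S j).R := by
    intro j hj
    induction j, hj using Nat.le_induction with
    | base => exact hj0
    | succ j _ ih => exact hpers _ _ ih
  have hj := hall (Nat.pair k j0) (Nat.right_le_pair k j0)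
  have hN := hS (Nat.pair k j0)
  rw [Nat.unpair_pair] at hN
  exact ⟨Nat.pair k j0 + 1, hN.hund, (hN.hull hj).1, (hN.hull hj).2⟩

end Pool.Agent.H69.KC
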